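import Mathlib
import Pool.Agent.TH394.HadCheck

/-!
# A Hadamard matrix of order 4492

Four `±1` functions on `Z_1123` (nibble `p` of `Q` holds the four signs at the element
with code `p`) with total periodic autocorrelation `0`.
-/

set_option autoImplicit false

namespace Pool.Agent.U815.Had.N1123

open Pool.Agent.TH394

/-- the sequences -/
def Q : ℕ :=
  0x2a60332b5d0d8aaf35306d0962606fd3283aa86dd3fe5bec24e1902be302d95daaa2dd6f50b204aedeed5356298fa65a6a6236f5ac0c463f360dbb3a00acc550cf803f21695000ffaa6b9f210d226ff6005636b92a0d6564daf6f2f3dff46adf40c0d316cd6462a5ff9adde3d200fdc39df4bd29ff0f5820fcfd30fa03caea0d0aaf623ba86ff155638c6acdab2c05d5afdfa30f5613f1a54b9e9a26d0529f242bad6af4ed645f6c3a5f0b2024fad4929920ef63a50192ad309f9fd260df0e5222fc332b6ebd55e0332043d2605a0f0a0f920cdf90de86d829562c5c5209331d2cc945a23fdecafc6fd3acd34992315b23d322de0d2be2af6bc89a1f666f0c5edbff30b5a0f1bd4ff0a253253505f98534ed92eaa0ff035e3f9ff1d3ccc9ae293ff2e0bfdfdd4da31553250dc3d51f35529f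acd666d0c620593c895afc958af2aa5f0faee3afa3a2060020925ad3d36a0df0fa6f8bafaa9d6a22629ffe320c860c3cd12bc6d543fdffc9bd25965affa0dd8d9cd5c6d50e06f4fc8e0fdc46091a66d6353338f851df24065f39f935365c5838068dc29d2e9653bc05a06b5f4cdf3cd5dcaa5c5a390246bd00062254a902c15c3930f1c31a53a51a2d5c5d68553026aa23ccd2f95fc63df38936fa90451ac335393ddfa3a06d2236f6f138656a6ff16d39d8510a5e563c00c1ff660adf12d0fffa02fc2f552f645493af0cb36ad629cf6352e86baf299f9c3fa51fd9f2a323fb6f81495dc60938095d954556223a28a23619a66156ffff5c222ffb584a1628f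

set_option maxRecDepth 100000 in
theorem check : checkA (Fin 1123) Q 1123 = true := by decide +kernel

theorem had : HadOrder 4492 :=
  hadamard_checkA (Fin 1123) Q 1123 (by simp) check

end Pool.Agent.U815.Had.N1123
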