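import Mathlib
import Pool.Agent.TH394.HadCheck

/-!
# A Hadamard matrix of order 5932

Four `±1` functions on `Z_1483` (nibble `p` of `Q` holds the four signs at the element
with code `p`) with total periodic autocorrelation `0`.
-/

set_option autoImplicit false

namespace Pool.Agent.U815.Had.N1483

open Pool.Agent.TH394

/-- the sequences -/
def Q : ℕ :=
  0x8a50ed6ba936149b7e46bda4b5489b9f6dd978d741bdbe942fdd891a1b757b7e446a4a560a4afa9a0275a1b34b9926a23cbe63263abb152015b53d025a71ad037908c44ea95eb2c742a952b08eded6597bbcdabd70d5fb04d2afcb2637a7de8ced0651a394340004e4b0f535753dd09b75bd2b2214fab260b2692ab5291abbdd9d9b4b1ae67434f9294b42d97570466a6267d9ab723ca19b3ad3e309baa7bddbbd2b4bd6aad9eb564ddb4a4d4e4faba963cc39ae66f140572d6d790a03296a4699dd5b8462f5d99d9604646962020b34f3d9a5bb9e929442ba7ddd260d2206fb4a0d7bd6d75f2cb085795e3e25b7a74255d0146b4799d13d90db458e51db765d3b6a5625244b65e009846a2204b2de96474be945a2604d260da24d8299b45479849c943d6a7ba0f16d40045669b5c61bad90e3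3d43c46b66d5ceb09ab1667a210f4aa7bfa42fba646e4e6d4b734fb264f92a6afb421ed4d61443a8cebedba06b245456b6dd7b50e3b4b40ed598326dda80ad741acdeb4269db34ac767490e4d4bb2623d3b24bea6804a0de9d5d9b5b0d2b67a2a267b9247b94d71207027bad725e7d4aab7ed2af9bd6e3e6004bb999d095b95ae6ba6db0343223dcc782d7eedfa9897b067d3fb374666d8d2e8cb615c22a4d6adb4db3a429dc22eb7dbeea39675242b3a2d5149461d40d3bdbc645d4364bd2bdc1446dfa494205a36f3dc402734491644eed67bc621c92b84fe42dd32bab964a6897599c6c6269db5cb6b33b37297d9411b32ba9b25eec3482b2f3c7d722aa3900596a9a77ab4ba5988d946a3baa286b6686d84dfaa4be5a91a99bde0524da384222e92dc444bb254d36b7555f20ad9b4b83b49dad323de63924cb64a7dd2266493f9bcb493f4547e4dabeccd5bb9ed42eb00d01fe49b2d07e21de6738e449e8099433b801aded243e65f024046e0bb0de649e8edfe42c85493de23d44a59259ad092ab6b36559da3f2eeba7a5ecb4ada97da4df444dad6d41725b091dd5f8dfb8827346dd36babdb704667d99ba9240e3add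

set_option maxRecDepth 100000 in
theorem check : checkA (Fin 1483) Q 1483 = true := by decide +kernel

theorem had : HadOrder 5932 :=
  hadamard_checkA (Fin 1483) Q 1483 (by simp) check

end Pool.Agent.U815.Had.N1483
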