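import Mathlib
import Pool.Agent.TH394.HadCheck

/-!
# A Hadamard matrix of order 3532

Four `±1` functions on `Z_883` (nibble `p` of `Q` holds the four signs at the element
with code `p`) with total periodic autocorrelation `0`.
-/

set_option autoImplicit false

namespace Pool.Agent.U815.Had.N883

open Pool.Agent.TH394

/-- the sequences -/
def Q : ℕ :=
  0x19616d770d56e4046876ef9e08e7986705e9a95e98a2e678989afa09a59905595e3278158ce63fd846ca91339ad594aa8659ac7d54a35e466d7f0605ff72ef769f4fde40492ae9ff39da6aed1e92e6fa29455aed3c29905e7c1380c24c770ded390d5215fc2a7990af796c9007afc7ad4da0a9f24ee58fdff555d9807a22491de61269fff61ae9ef375cf31d08712422f0a59071cea31a46c7aaacd3aa0ee50d4056071292f18ff01e0a7361961e0f5a096ac760eaa8aa90976a0949fea0a810f0d59e565280898f94ca530c99862178f3a269561d7af66edf69f3ff3a991d96d9464d38936c94c3177f38429925a0326fa7a7a7806c49cf7953205347f6f7f6faad3973057602f4959ea7436a36aff51e5972ea8f8ef760aefa045793a95093026e931f55e859c97ac86c3027f3a75efad4d1936d9ad6ce4193fec89fa79f0007afd7e54ec999509690f2798a7f24d8a95af8fc29ce8e9791f5f7ff5e825213581c7dac5af43eeed80d61c91391963f91a9a50c9ea61976af4fa188ddca67a8f44e401f6cff5f9e4700e9ef99a1e9026629aa4127ce288a4cfcea9dc0f799097f2061c32d5cff95e7f679f1255da56f76e5e56c95009434aeb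

set_option maxRecDepth 100000 in
theorem check : checkA (Fin 883) Q 883 = true := by decide +kernel

theorem had : HadOrder 3532 :=
  hadamard_checkA (Fin 883) Q 883 (by simp) check

end Pool.Agent.U815.Had.N883
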