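import Mathlib
import Pool.Agent.TH394.HadCheck

/-!
# A Hadamard matrix of order 3732

Four `±1` functions on `Z_3 x Z_311` (nibble `p` of `Q` holds the four signs at the element
with code `p`) with total periodic autocorrelation `0`.
-/

set_option autoImplicit false

namespace Pool.Agent.U815.Had.N933

open Pool.Agent.TH394

/-- the sequences -/
def Q : ℕ :=
  0xde6644d49939ded9bdfd6f0deee6befd804e886e340863ded63666b4b0f6389e4b63f9069b4b34e64fd9f33bd4dfbe06be04ff04d4646009d08398b4df8b9d66f900f49fe8ed6334fd6009b08f09e69409983ebdd83f6fe0be990e883046e3b460d6930998b8b3b9eeb9f489f4e3b34dde03eb8fbd4b40890ed84bf06d8e94b4888d83f3d869bdf866fb963ef48fff39e83e3403f30d00b3bb88f374add5545ddfd4a4d0424d2b4aaad0a242b5a22daf5b2df4a4dfddd050b2df2da50df2dbdd050f5ad524d2ff045420abd0ab522b545d5dbbd4b2fd2054220d4dd2dbb25d2a2a4dff524dbbd0b22bdadd5bdd2fa0442f2d2ab0addba22fb5daf05db4ddfbdd2020f0daa0d252d25af0f544abfa02204505b2dba42502bd42ad50522242f2f42dd0422dd20ddfa252222fda2faf5bf2fb4bb0f00222ff7d229979ddcd7d7d17272267ddd21d27a69daa2dc96a2c7d72c222191622cadd912c2d62d191c9d2927d2cc179721d621d6922697929266d76acda1972a1d7222d6629d2dad72cc927266d16a26dd2d96ddacd177ac222d61ddd6daac692dc192672dc6dda1a1c1ddd1d29ad29dc1c977d6cd1a2179196ad6d7a912627add919aaa7ac2c7a2d172a2221d2cd29a222cddacdc96c2c67661c11aa2c4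

set_option maxRecDepth 100000 in
theorem check : checkA (Fin 3 × Fin 311) Q 933 = true := by decide +kernel

theorem had : HadOrder 3732 :=
  hadamard_checkA (Fin 3 × Fin 311) Q 933 (by simp) check

end Pool.Agent.U815.Had.N933
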